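import Pool.Agent.H32.CSing

set_option autoImplicit false

namespace Pool.Agent.Results.MP_75c0e8_co.Weak

open Pool.Agent.H32.CSing

/-- Q2: for finite `A` the class is weakly reconstructible for large arity; for infinite `A`
and `|B| ≥ 2` it is not, in any arity. -/
theorem result (A B : Type) :
    (Finite A → ∃ N : ℕ, ∀ n, N ≤ n → ∀ f g : (Fin (n + 1) → A) → B,
      DetCS f → DetCS g → SameDeck f g → Sim f g) ∧
    (Infinite A → Nontrivial B → ∀ n : ℕ, ∃ f g : (Fin (n + 1) → A) → B,
      DetCS f ∧ DetCS g ∧ SameDeck f g ∧ ¬ Sim f g) :=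
  ⟨fun _ => by
    haveI := Fintype.ofFinite A
    exact ⟨_, fun n hn => weak hn⟩, fun _ _ _ => inf⟩

end Pool.Agent.Results.MP_75c0e8_co.Weak
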